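import Pool.Agent.Helper71.PR.Goals

/-!
# MP_af9e5e_al, project PR, packet PR-LDUS: LDU decompositions of sequences
-/

set_option autoImplicit false

namespace Pool.Agent.Helper51.PR

open Matrix Filter Topology Pool.Agent.Helper71.PR

theorem ldus (h : G_LDU1) : G_LDUS := by
  intro n Y t X hX hX0
  have hE : ∀ (j : Fin n) (I K : JS ((j : ℕ) + 1) n),
      Tendsto (fun m => t m j * cp ((j : ℕ) + 1) (Y m) I K) atTop (𝓝 (X j I K)) := by
    intro j I K
    have h1 := tendsto_pi_nhds.mp (tendsto_pi_nhds.mp (hX j) I) K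
    exact h1
  have hld : ∀ j : Fin n, Tendsto (fun m => t m j * ld j (Y m)) atTop
      (𝓝 (X j (bd j j le_rfl) (bd j j le_rfl))) := fun j => hE j _ _
  have hP : ∀ᶠ m in atTop, ∀ j : Fin n, ld j (Y m) ≠ 0 ∧ t m j ≠ 0 := by
    rw [Filter.eventually_all]
    intro j
    filter_upwards [(hld j).eventually_ne (hX0 j)] with m hm
    exact ⟨fun h0 => hm (by rw [h0, mul_zero]), fun h0 => hm (by rw [h0, zero_mul])⟩
  have key : ∀ m, ∃ (L U : Mt n) (d : Fin n → ℝ), LowU L ∧ UppU U ∧ (∀ j, d j ≠ 0) ∧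
      ((∀ j : Fin n, ld j (Y m) ≠ 0 ∧ t m j ≠ 0) → Y m = L * diagonal d * U ∧
      (∀ (i j : Fin n) (h : j ≤ i),
        L i j * ld j (Y m) = cp ((j : ℕ) + 1) (Y m) (bd j i h) (bd j j le_rfl)) ∧
      (∀ (i j : Fin n) (h : j ≤ i),
        U j i * ld j (Y m) = cp ((j : ℕ) + 1) (Y m) (bd j j le_rfl) (bd j i h)) ∧
      (∀ (i j : Fin n) (h : j ≤ i), (i : ℕ) = j + 1 → d i * (ld j (Y m)) ^ 2 =
        d j * (cp ((j : ℕ) + 1) (Y m) (bd j i h) (bd j i h) * ld j (Y m) -
          cp ((j : ℕ) + 1) (Y m) (bd j j le_rfl) (bd j i h) *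
            cp ((j : ℕ) + 1) (Y m) (bd j i h) (bd j j le_rfl)))) := by
    intro m
    by_cases hm : ∀ j : Fin n, ld j (Y m) ≠ 0 ∧ t m j ≠ 0
    · obtain ⟨L, U, d, h1, h2, h3, h4, h5, h6, h7⟩ := h n (Y m) (fun j => (hm j).1)
      exact ⟨L, U, d, h1, h2, h3, fun _ => ⟨h4, h5, h6, h7⟩⟩
    · refine ⟨1, 1, fun _ => 1, ⟨fun i => Matrix.one_apply_eq i, fun i j hij => ?_⟩,
        ⟨fun i => Matrix.one_apply_eq i, fun i j hij => ?_⟩, fun _ => one_ne_zero,
        fun h' => absurd h' hm⟩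
      · exact Matrix.one_apply_ne (ne_of_lt hij)
      · exact Matrix.one_apply_ne (ne_of_gt hij)
  choose L U d hL hU hd hdec using key
  set L0 : Mt n := fun i j => if h : j ≤ i then
    X j (bd j i h) (bd j j le_rfl) / X j (bd j j le_rfl) (bd j j le_rfl) else 0 with hL0
  set U0 : Mt n := fun j i => if h : j ≤ i then
    X j (bd j j le_rfl) (bd j i h) / X j (bd j j le_rfl) (bd j j le_rfl) else 0 with hU0
  have hL0a : ∀ (i j : Fin n) (h : j ≤ i), L0 i j =
      X j (bd j i h) (bd j j le_rfl) / X j (bd j j le_rfl) (bd j j le_rfl) := by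
    intro i j hji
    rw [hL0]
    simp only [dif_pos hji]
  have hL0b : ∀ (i j : Fin n), i < j → L0 i j = 0 := by
    intro i j hij
    rw [hL0]
    simp only [dif_neg (not_le.mpr hij)]
  have hU0a : ∀ (i j : Fin n) (h : j ≤ i), U0 j i =
      X j (bd j j le_rfl) (bd j i h) / X j (bd j j le_rfl) (bd j j le_rfl) := by
    intro i j hji
    rw [hU0]
    simp only [dif_pos hji]
  have hU0b : ∀ (i j : Fin n), j < i → U0 i j = 0 := by
    intro i j hij
    rw [hU0]
    simp only [dif_neg (not_le.mpr hij)]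
  -- consecutive ratios
  have hcons : ∀ (i j : Fin n), (i : ℕ) = j + 1 → ∃ c : ℝ,
      Tendsto (fun m => d m i / d m j) atTop (𝓝 c) ∧
      ((∀ j, ∀ I K I' K', X j I K * X j I' K' = X j I K' * X j I' K) → c = 0) := by
    intro i j hij
    have hji : j ≤ i := by
      rw [Fin.le_def]
      omega
    refine ⟨(X j (bd j i hji) (bd j i hji) * X j (bd j j le_rfl) (bd j j le_rfl) -
      X j (bd j j le_rfl) (bd j i hji) * X j (bd j i hji) (bd j j le_rfl)) /
      (X j (bd j j le_rfl) (bd j j le_rfl)) ^ 2, ?_, ?_⟩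
    · have h1 := (((hE j (bd j i hji) (bd j i hji)).mul (hld j)).sub
        ((hE j (bd j j le_rfl) (bd j i hji)).mul (hE j (bd j i hji) (bd j j le_rfl)))).div
        ((hld j).pow 2) (pow_ne_zero 2 (hX0 j))
      refine h1.congr' ?_
      filter_upwards [hP] with m hm
      have h4 := (hdec m hm).2.2.2 i j hji hij
      have hl := (hm j).1
      have ht := (hm j).2
      have hdj := hd m j
      rw [Pi.div_apply, div_eq_div_iff (pow_ne_zero 2 (mul_ne_zero ht hl)) hdj]
      calc _ = t m j ^ 2 * (d m j * (cp ((j : ℕ) + 1) (Y m) (bd j i hji) (bd j i hji) * ld j (Y m) -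
          cp ((j : ℕ) + 1) (Y m) (bd j j le_rfl) (bd j i hji) *
            cp ((j : ℕ) + 1) (Y m) (bd j i hji) (bd j j le_rfl))) := by ring
        _ = t m j ^ 2 * (d m i * (ld j (Y m)) ^ 2) := by rw [h4]
        _ = _ := by ring
    · intro hV
      rw [hV j (bd j i hji) (bd j i hji) (bd j j le_rfl) (bd j j le_rfl)]
      rw [mul_comm (X j (bd j i hji) (bd j j le_rfl)), sub_self, zero_div]
  have hrat : ∀ k : ℕ, ∀ i j : Fin n, (j : ℕ) = i + k → ∃ c : ℝ,
      Tendsto (fun m => d m j / d m i) atTop (𝓝 c) ∧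
      ((∀ j, ∀ I K I' K', X j I K * X j I' K' = X j I K' * X j I' K) → 0 < k → c = 0) := by
    intro k
    induction k with
    | zero =>
      intro i j hij
      have : j = i := Fin.ext (by omega)
      subst this
      refine ⟨1, ?_, fun _ h0 => absurd h0 (lt_irrefl 0)⟩
      refine tendsto_const_nhds.congr ?_
      intro m
      rw [div_self (hd m j)]
    | succ k ih =>
      intro i j hij
      have hlt : (i : ℕ) + k < n := by
        have := j.2
        omega
      obtain ⟨c, hc, -⟩ := ih i ⟨(i : ℕ) + k, hlt⟩ rfl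
      obtain ⟨c', hc', hc0⟩ := hcons j ⟨(i : ℕ) + k, hlt⟩ (by
        show (j : ℕ) = (i : ℕ) + k + 1
        omega)
      refine ⟨c' * c, ?_, ?_⟩
      · refine (hc'.mul hc).congr ?_
        intro m
        rw [div_mul_div_cancel₀ (hd m _)]
      · intro hV _
        rw [hc0 hV, zero_mul]
  have hbd : ∀ i j : Fin n, ∃ C : ℝ, 0 ≤ C ∧ (i < j → ∀ᶠ m in atTop, |d m j| ≤ C * |d m i|) := by
    intro i j
    by_cases hij : i < j
    · have hij' : (i : ℕ) < j := hij
      obtain ⟨c, hc, -⟩ := hrat ((j : ℕ) - i) i j (by omega)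
      refine ⟨|c| + 1, by positivity, fun _ => ?_⟩
      have h1 := hc.abs.eventually_le_const (lt_add_one |c|)
      filter_upwards [h1] with m hm
      rw [abs_div, div_le_iff₀ (abs_pos.mpr (hd m i))] at hm
      exact hm
    · exact ⟨0, le_rfl, fun h' => absurd h' hij⟩
  choose C hC0 hC using hbd
  refine ⟨L, U, d, L0, U0, ∑ i, ∑ j, C i j, hL, hU, ⟨?_, hL0b⟩, ⟨?_, hU0b⟩, ?_, ?_, ?_, ?_, hd, ?_, ?_, ?_⟩
  · intro i
    rw [hL0a i i le_rfl, div_self (hX0 i)]
  · intro i
    rw [hU0a i i le_rfl, div_self (hX0 i)]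
  · refine tendsto_pi_nhds.mpr fun i => tendsto_pi_nhds.mpr fun j => ?_
    by_cases hji : j ≤ i
    · rw [hL0a i j hji]
      refine ((hE j (bd j i hji) (bd j j le_rfl)).div (hld j) (hX0 j)).congr' ?_
      filter_upwards [hP] with m hm
      rw [Pi.div_apply, ← (hdec m hm).2.1 i j hji, div_eq_iff (mul_ne_zero (hm j).2 (hm j).1)]
      ring
    · rw [hL0b i j (not_le.mp hji)]
      refine tendsto_const_nhds.congr ?_
      intro m
      rw [(hL m).2 i j (not_le.mp hji)]
  · refine tendsto_pi_nhds.mpr fun j => tendsto_pi_nhds.mpr fun i => ?_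
    by_cases hji : j ≤ i
    · rw [hU0a i j hji]
      refine ((hE j (bd j j le_rfl) (bd j i hji)).div (hld j) (hX0 j)).congr' ?_
      filter_upwards [hP] with m hm
      rw [Pi.div_apply, ← (hdec m hm).2.2.1 i j hji, div_eq_iff (mul_ne_zero (hm j).2 (hm j).1)]
      ring
    · rw [hU0b j i (not_le.mp hji)]
      refine tendsto_const_nhds.congr ?_
      intro m
      rw [(hU m).2 j i (not_le.mp hji)]
  · intro i j hji
    rw [hL0a i j hji, div_mul_cancel₀ _ (hX0 j)]
  · intro i j hji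
    rw [hU0a i j hji, div_mul_cancel₀ _ (hX0 j)]
  · filter_upwards [hP] with m hm
    exact (hdec m hm).1
  · rw [Filter.eventually_all]
    intro i
    rw [Filter.eventually_all]
    intro j
    by_cases hij : i < j
    · filter_upwards [hC i j hij] with m hm _
      refine hm.trans (mul_le_mul_of_nonneg_right ?_ (abs_nonneg _))
      have h1 : C i j ≤ ∑ j', C i j' :=
        Finset.single_le_sum (f := fun j' => C i j') (fun j' _ => hC0 i j') (Finset.mem_univ j)
      have h2 : ∑ j', C i j' ≤ ∑ i', ∑ j', C i' j' :=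
        Finset.single_le_sum (f := fun i' => ∑ j', C i' j')
          (fun i' _ => Finset.sum_nonneg fun j' _ => hC0 i' j') (Finset.mem_univ i)
      exact h1.trans h2
    · exact Filter.Eventually.of_forall fun m h' => absurd h' hij
  · intro hV i j hij
    have hij' : (i : ℕ) < j := hij
    obtain ⟨c, hc, hc0⟩ := hrat ((j : ℕ) - i) i j (by omega)
    rw [hc0 hV (by omega)] at hc
    exact hc

end Pool.Agent.Helper51.PR
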